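import Pool.Agent.P.MP_ae912c_co.Defs
import Pool.Agent.P.MP_ae912c_co.Proof

open FirstOrder CategoryTheory Pool.Agent.P.MP_ae912c_co

universe u v w

namespace Pool.Agent.Results.MP_ae912c_co.TwoSunflowerIff

/-- For every class `K` of finite `L`-structures (in particular every relational Fraïssé class with
strong amalgamation), the finite 2-sunflower property is equivalent to the finite sunflower
property. -/
theorem result (L : FirstOrder.Language.{u, v}) (K : Set (Bundled.{w} L.Structure))
    (hfin : ∀ M ∈ K, Finite M) :
    FiniteSunflower K 2 ↔ ∀ k : ℕ, 1 ≤ k → FiniteSunflower K k :=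
  ⟨fun h k _ => finiteSunflower_of_two hfin h k, fun h => h 2 (by norm_num)⟩

end Pool.Agent.Results.MP_ae912c_co.TwoSunflowerIff
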